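import Pool.Agent.Z125.UN.Bnd
import Pool.Agent.Q282.UZ.Sys

/-!
# Graph hypersurfaces decide every property closed under closed-open decompositions: definitions

The complement `Ψ ≠ 0` of the graph hypersurface of a finite graph (`Ψ` is the Kirchhoff polynomial, the
sum over the spanning trees of the products of the edge variables). Main theorem: if a property `P` of
schemes of finite type over `R` is closed under closed-open decompositions (two out of three), under
`X ↔ X × 𝔸¹` and from `X × 𝔾_m` to `X`, and is true for these complements, it is true for all schemes.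

Everything is done on points in fields: a locally closed subscheme `G = 0`, `w ≠ 0` of an affine space is
known, up to nilpotents (and `P` does not see nilpotents), by its points in all fields over `R`.
-/

set_option autoImplicit false

open CategoryTheory AlgebraicGeometry MvPolynomial Pool.Agent.Y116.UV Pool.Agent.Z125.UN
  Pool.Agent.Q282.UZ

namespace Run7.h570.GH

/-- Closure properties: isomorphisms, closed-open decompositions (two out of three), `X ↔ X × 𝔸¹` and
from `X × 𝔾_m` to `X` (for affine `X`). -/
structure GClo {R : Type} [CommRing R] (sep : Prop) (P : Sch R → Prop) : Prop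
    extends Pool.Agent.Q282.UK.Clo sep P where
  closed : ∀ {Z X U : Sch R} (i : Z ⟶ X) (j : U ⟶ X), FT sep X → IsTriple i j → P X → P U → P Z
  line : ∀ (A : Type) [CommRing A] [Algebra R A] [Algebra.FiniteType R A],
    P (aff R (MvPolynomial (Fin 1) A)) ↔ P (aff R A)

section families

variable (R : Type) [CommRing R]

/-- A subset of the affine space with coordinates `σ`, given by its points in all fields over `R`. -/
abbrev Fam (σ : Type) : Type 1 := ∀ (K : Type) [Field K] [Algebra R K], (σ → K) → Prop

/-- A function on the points of the affine space in all fields over `R`. -/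
abbrev Fun (σ : Type) : Type 1 := ∀ (K : Type) [Field K] [Algebra R K], (σ → K) → K

end families

variable {R : Type} [CommRing R]

/-- The points in `S` are the points with `G = 0` and `w ≠ 0`. -/
def Is {σ κ : Type} (S : Fam R σ) (G : κ → MvPolynomial σ R) (w : MvPolynomial σ R) : Prop :=
  ∀ (K : Type) [Field K] [Algebra R K] (x : σ → K),
    S K x ↔ (∀ k, aeval x (G k) = 0) ∧ aeval x w ≠ 0

/-- `S` is the set of points of an affine locally closed subscheme. -/
def Rep {σ : Type} (S : Fam R σ) : Prop :=
  ∃ (κ : Type) (G : κ → MvPolynomial σ R) (w : MvPolynomial σ R), Is S G w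

/-- `P` is true for an affine locally closed subscheme with the set of points `S`. -/
def Q (P : Sch R → Prop) {σ : Type} (S : Fam R σ) : Prop :=
  ∃ (κ : Type) (G : κ → MvPolynomial σ R) (w : MvPolynomial σ R), Is S G w ∧ P (aff R (Pc G w))

/-- `F` is a regular function on `S`: a quotient of two polynomials. -/
def Rg {σ : Type} (S : Fam R σ) (F : Fun R σ) : Prop :=
  ∃ n d : MvPolynomial σ R, ∀ (K : Type) [Field K] [Algebra R K] (x : σ → K), S K x →
    aeval x d ≠ 0 ∧ F K x * aeval x d = aeval x n

/-! ## Graph hypersurfaces -/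

/-- The variable of the edge `u v` (zero if `u v` is not an edge). -/
noncomputable def ev (R : Type) [CommRing R] {n : ℕ} (Γ : SimpleGraph (Fin n)) (u v : Fin n) :
    MvPolynomial Γ.edgeSet R :=
  open Classical in if h : Γ.Adj u v then X ⟨s(u, v), h⟩ else 0

/-- The Kirchhoff polynomial of a graph with the vertices `0, …, n`: the determinant of the weighted
Laplace matrix without the row and the column of the vertex `0`. -/
noncomputable def kirch (R : Type) [CommRing R] {n : ℕ} (Γ : SimpleGraph (Fin (n + 1))) :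
    MvPolynomial Γ.edgeSet R :=
  Matrix.det (Matrix.of fun i j : Fin n =>
    if i = j then ∑ v, ev R Γ i.succ v else - ev R Γ i.succ j.succ)

/-- The complement of the graph hypersurface. -/
noncomputable def ghS (R : Type) [CommRing R] {n : ℕ} (Γ : SimpleGraph (Fin (n + 1))) : Sch R :=
  aff R (Localization.Away (kirch R Γ))

/-- `P` is true for the complements of all graph hypersurfaces. -/
def ForGraphs (P : Sch R → Prop) : Prop :=
  ∀ (n : ℕ) (Γ : SimpleGraph (Fin (n + 1))), P (ghS R Γ)

/-! ## Symmetric matrices with a kernel and a flag of supports -/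

section flag

variable {V : Type} [Fintype V] [DecidableEq V] {c : ℕ}

/-- the matrix of a point `(M, u)` -/
def mt {K τ : Type} (x : (V × V) ⊕ τ → K) : Matrix V V K := fun i j => x (Sum.inl (i, j))

/-- the vectors of a point `(M, u)` -/
def vc {K : Type} (x : (V × V) ⊕ (Fin c × V) → K) (a : Fin c) : V → K := fun l => x (Sum.inr (a, l))

/-- symmetric, and zero at the pairs which are not edges (the diagonal is arbitrary) -/
def Pat {K : Type} [Zero K] (G : SimpleGraph V) (M : Matrix V V K) : Prop :=
  (∀ i j, M i j = M j i) ∧ ∀ i j, i ≠ j → ¬ G.Adj i j → M i j = 0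

open Classical in
/-- the diagonal matrix which is the indicator function of the image of `C` -/
noncomputable def ind {K : Type} [Zero K] [One K] (C : Fin c → V) : Matrix V V K :=
  Matrix.diagonal fun l => if l ∈ Set.range C then 1 else 0

/-- `M` has the pattern `G`, and the kernel of `M` has the basis `u`, dual to the coordinates `C`. -/
def Ker {K : Type} [Field K] (G : SimpleGraph V) (C : Fin c → V) (M : Matrix V V K)
    (u : Fin c → V → K) : Prop :=
  Pat G M ∧ (∀ a, Matrix.mulVec M (u a) = 0) ∧ (∀ a b, u a (C b) = if a = b then 1 else 0) ∧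
    (M + ind C).det ≠ 0

/-- The supports of the vectors: `u a l = 0` if `a + 1 > τ l` and `u a l ≠ 0` if `a + 1 = τ l`. -/
def Flg {K : Type} [Zero K] (τ : V → ℕ) (u : Fin c → V → K) : Prop :=
  (∀ (a : Fin c) l, τ l < a.1 + 1 → u a l = 0) ∧ ∀ (a : Fin c) l, τ l = a.1 + 1 → u a l ≠ 0

/-- The set of the `(M, u)` with `Ker G C M u`. -/
def CoFam (R : Type) [CommRing R] (G : SimpleGraph V) (C : Fin c → V) :
    Fam R ((V × V) ⊕ (Fin c × V)) := fun _ _ _ x => Ker G C (mt x) (vc x)

/-- The set of the `(M, u)` with `Ker G C M u` and the flag of supports `τ`. -/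
def FlagFam (R : Type) [CommRing R] (G : SimpleGraph V) (C : Fin c → V) (τ : V → ℕ) :
    Fam R ((V × V) ⊕ (Fin c × V)) := fun _ _ _ x => Ker G C (mt x) (vc x) ∧ Flg τ (vc x)

/-- The graph with one more vertex `none`, whose neighbours are the elements of `J`. -/
def ext (G : SimpleGraph V) (J : Finset V) : SimpleGraph (Option V) where
  Adj a b := match a, b with
    | none, none => False
    | none, some l => l ∈ J
    | some l, none => l ∈ J
    | some l, some m => G.Adj l m
  symm := ⟨by
    rintro (_ | l) (_ | m) h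
    · exact h
    · exact h
    · exact h
    · exact G.adj_symm h⟩
  loopless := ⟨by
    rintro (_ | l) h
    · exact h
    · exact G.irrefl h⟩

/-- The set of the `(M, u, v)` such that `u` has the flag of supports `τ` and the kernel of `M` is the
span of the `u a` and of `v ≠ 0`, where `u` is dual to the coordinates `C` and `v` vanishes on `C`. -/
def LineFam (R : Type) [CommRing R] (G : SimpleGraph V) (C : Fin c → V) (τ : V → ℕ) :
    Fam R (((V × V) ⊕ (Fin c × V)) ⊕ V) := fun K _ _ x =>
  let M : Matrix V V K := mt fun s => x (Sum.inl s)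
  let u : Fin c → V → K := vc fun s => x (Sum.inl s)
  let v : V → K := fun l => x (Sum.inr l)
  Pat G M ∧ (∀ a, Matrix.mulVec M (u a) = 0) ∧ (∀ a b, u a (C b) = if a = b then 1 else 0) ∧
    Flg τ u ∧ Matrix.mulVec M v = 0 ∧ (∀ b, v (C b) = 0) ∧ v ≠ 0 ∧
    ∀ w : V → K, Matrix.mulVec M w = 0 → (∀ b, w (C b) = 0) → ∃ t : K, w = t • v

end flag

/-! ## Lines of linear forms -/

/-- `S` does not change if `v` is multiplied by a nonzero factor. -/
def Homog {σ V : Type} (S : Fam R (σ ⊕ V)) : Prop :=
  ∀ (K : Type) [Field K] [Algebra R K] (x : σ ⊕ V → K) (t : K), t ≠ 0 → S K x →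
    S K (Sum.elim (fun s => x (Sum.inl s)) fun l => t * x (Sum.inr l))

/-- The set of the `(x, v, b)` with `(x, v) ∈ S`, `b` supported in `J` and `∑ b_l v_l = 1`. -/
def PairFam {σ V : Type} [Fintype V] (S : Fam R (σ ⊕ V)) (J : Finset V) : Fam R ((σ ⊕ V) ⊕ V) :=
  fun K _ _ x => S K (fun s => x (Sum.inl s)) ∧ (∀ l, l ∉ J → x (Sum.inr l) = 0) ∧
    ∑ l, x (Sum.inr l) * x (Sum.inl (Sum.inr l)) = 1

/-- The set of the `(x, v)` in `S` with `v p = 1`, `v = 0` on `T₀` and `v ≠ 0` everywhere on `T₁`. -/
def SuppFam {σ V : Type} (S : Fam R (σ ⊕ V)) (p : V) (T₀ T₁ : Finset V) : Fam R (σ ⊕ V) :=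
  fun K _ _ x => S K x ∧ x (Sum.inr p) = 1 ∧ (∀ l ∈ T₀, x (Sum.inr l) = 0) ∧
    ∀ l ∈ T₁, x (Sum.inr l) ≠ 0

/-! ## Orthogonality of rows and columns -/

section inc

variable {I J H : Type} [Fintype H]

/-- The set of the pairs of matrices `(r, s)` with the supports `sI` and `sJ` such that
`∑_h r_ih s_jh = 0` for all `(i, j)` in `Ω`. -/
def IncFam (R : Type) [CommRing R] (sI : I → H → Prop) (sJ : J → H → Prop) (Ω : I → J → Prop) :
    Fam R ((I × H) ⊕ (J × H)) := fun _ _ _ x =>
  (∀ i h, ¬ sI i h → x (Sum.inl (i, h)) = 0) ∧ (∀ j h, ¬ sJ j h → x (Sum.inr (j, h)) = 0) ∧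
    ∀ i j, Ω i j → ∑ h, x (Sum.inl (i, h)) * x (Sum.inr (j, h)) = 0

/-- The same with the condition that the entries in `F` are not zero. -/
def IncNFam (R : Type) [CommRing R] (sI : I → H → Prop) (sJ : J → H → Prop) (Ω : I → J → Prop)
    (F : Finset ((I × H) ⊕ (J × H))) : Fam R ((I × H) ⊕ (J × H)) := fun K _ _ x =>
  IncFam R sI sJ Ω K x ∧ ∀ e ∈ F, x e ≠ 0

end inc

/-- The system of bilinear equations `∑_{(i, j) ∈ E_l} x_i y_j = 0`. -/
def SysFam (R : Type) [CommRing R] {a b c : ℕ} (E : Fin c → Finset (Fin a × Fin b)) :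
    Fam R (Fin a ⊕ Fin b) := fun _ _ _ x => ∀ l, ∑ e ∈ E l, x (Sum.inl e.1) * x (Sum.inr e.2) = 0

end Run7.h570.GH
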