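import Pool.Agent.Run7.h570.GH.Main
import Pool.Agent.Run7.h957.GH.Base
import Pool.Agent.Run7.h957.GH.PCons
import Pool.Agent.Run7.h957.GH.PFlags
import Pool.Agent.Run7.h646.GH.PCut
import Pool.Agent.Run7.h930.GH.PEnd
import Pool.Agent.Run7.h930.GH.PSplit
import Pool.Agent.Run7.h24.GH.PInc
import Pool.Agent.Run7.h24.GH.PTree
import Pool.Agent.Run7.h158.GH.PIso
import Pool.Agent.Run7.h158.GH.PLine
import Pool.Agent.Run7.h232.GH.PStart
import Pool.Agent.Run7.h611.GH.PSupp
import Pool.Agent.Run7.h579.GH.PSys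
import Pool.Agent.Run7.h237.GH.PTorus
import Pool.Agent.Run7.h798.UV.Rat

/-!
# Graph hypersurfaces decide every property closed under closed-open decompositions
-/

set_option autoImplicit false

open CategoryTheory AlgebraicGeometry MvPolynomial Pool.Agent.Y116.UV Pool.Agent.Z125.UN
  Pool.Agent.Q282.UZ

namespace Run7.h570.GH

theorem t_PKit : PKit :=
  kit_of Run7.h158.GH.t_PIso (Run7.h930.GH.t_PSplit Run7.h158.GH.t_PIso) Run7.h158.GH.t_PLine
    (Run7.h237.GH.t_PTorus Run7.h158.GH.t_PIso (Run7.h930.GH.t_PSplit Run7.h158.GH.t_PIso)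
      Run7.h158.GH.t_PLine)

/-- **Graph hypersurfaces decide.** -/
theorem graphs_iff {R : Type} [CommRing R] {sep : Prop} {P : Sch R → Prop}
    (hS : ShortPresents R) (hP : GClo sep P) : (∀ X : Sch R, FT sep X → P X) ↔ ForGraphs P :=
  graphs_iff_of hS hP t_PKit Run7.h611.GH.t_PSupp Run7.h646.GH.t_PCut Run7.h957.GH.t_PCons
    Run7.h957.GH.t_PHom Run7.h957.GH.t_PFlags Run7.h24.GH.t_PInc Run7.h957.GH.t_PNon
    Run7.h579.GH.t_PSys Run7.h930.GH.End.t_PEnd Run7.h232.GH.t_PStart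

end Run7.h570.GH
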