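import Pool.Agent.Run7.h570.GH.Defs

/-!
# Graph hypersurfaces: the pieces

`Kit P` collects the calculus for `Q P` (families of points in fields). Piece `PKit` derives it from the
closure properties `GClo`; all other pieces use only `Kit P`, and the lemmas on `Rg` and `Rep` in `Ops.lean`.
Every piece is a closed proposition; the proof is in the docstring.
-/

set_option autoImplicit false

open CategoryTheory AlgebraicGeometry MvPolynomial Pool.Agent.Y116.UV Pool.Agent.Z125.UN
  Pool.Agent.Q282.UZ

namespace Run7.h570.GH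

/-- The calculus. `iso`: regular bijections on points (with regular inverse) transport `P` (for every
presentation of the target). `total`, `opened`, `closed`: two out of three for `e = 0` and `e ≠ 0`.
`line`: any number of additional free coordinates. `torus`: any number of additional nonzero
coordinates. -/
structure Kit {R : Type} [CommRing R] (P : Sch R → Prop) : Prop where
  iso : ∀ {σ τ : Type} [Finite σ] [Finite τ] (S : Fam R σ) (T : Fam R τ)
    (f : ∀ (K : Type) [Field K] [Algebra R K], (σ → K) → τ → K)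
    (g : ∀ (K : Type) [Field K] [Algebra R K], (τ → K) → σ → K),
    (∀ t, Rg S fun K _ _ x => f K x t) → (∀ s, Rg T fun K _ _ y => g K y s) →
    (∀ (K : Type) [Field K] [Algebra R K] (x : σ → K), S K x → T K (f K x)) →
    (∀ (K : Type) [Field K] [Algebra R K] (y : τ → K), T K y → S K (g K y)) →
    (∀ (K : Type) [Field K] [Algebra R K] (x : σ → K), S K x → g K (f K x) = x) →
    (∀ (K : Type) [Field K] [Algebra R K] (y : τ → K), T K y → f K (g K y) = y) →
    Q P S → ∀ {κ : Type} (G : κ → MvPolynomial τ R) (w : MvPolynomial τ R), Is T G w →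
      P (aff R (Pc G w))
  total : ∀ {σ : Type} [Finite σ] (S : Fam R σ) (e : MvPolynomial σ R), Rep S →
    Q P (fun K _ _ x => S K x ∧ aeval x e = 0) → Q P (fun K _ _ x => S K x ∧ aeval x e ≠ 0) → Q P S
  opened : ∀ {σ : Type} [Finite σ] (S : Fam R σ) (e : MvPolynomial σ R), Q P S →
    Q P (fun K _ _ x => S K x ∧ aeval x e = 0) → Q P (fun K _ _ x => S K x ∧ aeval x e ≠ 0)
  closed : ∀ {σ : Type} [Finite σ] (S : Fam R σ) (e : MvPolynomial σ R), Q P S →
    Q P (fun K _ _ x => S K x ∧ aeval x e ≠ 0) → Q P (fun K _ _ x => S K x ∧ aeval x e = 0)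
  line : ∀ {σ τ : Type} [Finite σ] [Finite τ] (S : Fam R σ),
    Q P (fun K _ _ (x : σ ⊕ τ → K) => S K fun s => x (Sum.inl s)) ↔ Q P S
  torus : ∀ {σ τ : Type} [Finite σ] [Finite τ] (S : Fam R σ),
    Q P (fun K _ _ (x : σ ⊕ τ → K) => (S K fun s => x (Sum.inl s)) ∧ ∀ t, x (Sum.inr t) ≠ 0) ↔ Q P S

/-- **Piece PKit** (from `GClo`). Sub-pieces below: `PIso`, `PSplit`, `PLine`, `PTorus`. -/
def PKit : Prop := ∀ {R : Type} [CommRing R] (sep : Prop) (P : Sch R → Prop), GClo sep P → Kit P

/-- **Piece PIso.** The field `iso` of `Kit`. Proof. Let `A = Pc G₁ w₁` be the ring of the presentation of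
`S` with `P (aff R A)`, `B = Pc G w` the one of `T`. (1) `P (aff R A) ↔ P (aff R (A ⧸ nilradical A))`: the
closed immersion is a homeomorphism, the complement `U` is `Localization.Away 0 = Spec 0`; `P` of this is
true by `opened` with `Z = X` (identity) and `U` empty; then use `total` resp. `closed` (see
`triple_away`, `pc_closed` in `Z125/UN/Bnd.lean` with `e = 0`, and `closed_affMap`, `range_affMap`).
(2) `A_red` and `B_red` are isomorphic `R`-algebras: `f` has coordinates `n_t / d_t`, `d_t` is a unit of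
`A_red` because it does not vanish at any point (a prime `p` of `A` gives the field `K = Frac (A/p)` and
the point `x : σ → K`, in `S`); an element of `A_red` is `0` iff it vanishes at all these points. So
`X_t ↦ n_t d_t⁻¹` defines `MvPolynomial τ R → A_red`, which kills `G` and makes `w` a unit: `B → A_red`,
`B_red → A_red`; similarly back; the compositions are the identity because they are so at all points. -/
def PIso : Prop := ∀ {R : Type} [CommRing R] (sep : Prop) (P : Sch R → Prop), GClo sep P →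
  ∀ {σ τ : Type} [Finite σ] [Finite τ] (S : Fam R σ) (T : Fam R τ)
    (f : ∀ (K : Type) [Field K] [Algebra R K], (σ → K) → τ → K)
    (g : ∀ (K : Type) [Field K] [Algebra R K], (τ → K) → σ → K),
    (∀ t, Rg S fun K _ _ x => f K x t) → (∀ s, Rg T fun K _ _ y => g K y s) →
    (∀ (K : Type) [Field K] [Algebra R K] (x : σ → K), S K x → T K (f K x)) →
    (∀ (K : Type) [Field K] [Algebra R K] (y : τ → K), T K y → S K (g K y)) →
    (∀ (K : Type) [Field K] [Algebra R K] (x : σ → K), S K x → g K (f K x) = x) →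
    (∀ (K : Type) [Field K] [Algebra R K] (y : τ → K), T K y → f K (g K y) = y) →
    Q P S → ∀ {κ : Type} (G : κ → MvPolynomial τ R) (w : MvPolynomial τ R), Is T G w →
      P (aff R (Pc G w))

/-- **Piece PSplit** (uses `PIso` with `f = g = id` for the independence of the presentation). If `Is S G w`,
then `S ∧ e = 0` is presented by `adj G e, w` and `S ∧ e ≠ 0` by `G, w * e`; copy `pc_total`, `pc_closed`,
`pc_open` from `Z125/UN/Bnd.lean`. -/
def PSplit : Prop := ∀ {R : Type} [CommRing R] (sep : Prop) (P : Sch R → Prop), GClo sep P →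
  ∀ {σ : Type} [Finite σ] (S : Fam R σ) (e : MvPolynomial σ R),
    (Rep S → Q P (fun K _ _ x => S K x ∧ aeval x e = 0) →
      Q P (fun K _ _ x => S K x ∧ aeval x e ≠ 0) → Q P S) ∧
    (Q P S → Q P (fun K _ _ x => S K x ∧ aeval x e = 0) →
      Q P (fun K _ _ x => S K x ∧ aeval x e ≠ 0)) ∧
    (Q P S → Q P (fun K _ _ x => S K x ∧ aeval x e ≠ 0) →
      Q P (fun K _ _ x => S K x ∧ aeval x e = 0))

/-- **Piece PLine** (uses `PIso` for the independence of the presentation). `S` with additional
coordinates is presented by `rl G τ`, `rename Sum.inl w`, and `polyE` in `Z125/UN/Bnd.lean` is the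
isomorphism with `MvPolynomial τ (Pc G w)`; induction on the number of elements of `τ` with `GClo.line`. For
the direction to the left of `Q P S`: `S` is `Rep` because it is the preimage of its product with the space
under `x ↦ (x, 0)` (substitute `0` for the additional variables). -/
def PLine : Prop := ∀ {R : Type} [CommRing R] (sep : Prop) (P : Sch R → Prop), GClo sep P →
  ∀ {σ τ : Type} [Finite σ] [Finite τ] (S : Fam R σ),
    Q P (fun K _ _ (x : σ ⊕ τ → K) => S K fun s => x (Sum.inl s)) ↔ Q P S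

/-- **Piece PTorus** (uses `PIso`, `PSplit`, `PLine`). To the right: induction on the number of elements of
`τ`; for one element, `Pc (rl G) (rename w * X (inr t))` is the ring of Laurent polynomials over `Pc G w`
(universal properties), and `GClo.torus`. To the left: `S × 𝔸¹` and `S × {0} ≅ S` (`PLine`, `PIso`), then
`opened`. `S` is `Rep` because of `x ↦ (x, 1)`. -/
def PTorus : Prop := ∀ {R : Type} [CommRing R] (sep : Prop) (P : Sch R → Prop), GClo sep P →
  ∀ {σ τ : Type} [Finite σ] [Finite τ] (S : Fam R σ),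
    Q P (fun K _ _ (x : σ ⊕ τ → K) => (S K fun s => x (Sum.inl s)) ∧ ∀ t, x (Sum.inr t) ≠ 0) ↔ Q P S

/-- **Piece PSupp** (lines of linear forms). Proof. (1) For `T₁ = ∅`. Let `J = {p} ∪ T₀`. On
`W = PairFam S J` restricted to `v = 0` on a subset `T ⊆ J` and `v_q ≠ 0` for some `q ∈ J ∖ T`, the map
`(x, v, b) ↦ ((x, v / v_q), (b_l) for l ≠ q in J, 1 / v_q)` is a regular bijection onto
`SuppFam S q T ∅ × 𝔸^(J ∖ q) × 𝔾_m`: the inverse is `v = v' / s`, `b_q = s - ∑_{l ≠ q} b_l v'_l`. Induction on
the number of elements of `T₀`: enumerate `T₀ = {l₁, …, l_m}`; `W ∩ {v = 0 on l₁ … l_j}` has `Q`, by `closed`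
with `e = v_{l_{j+1}}` (the open part is `SuppFam S l_{j+1} {l₁, …, l_j} ∅ × 𝔸 × 𝔾_m` by induction). For
`j = m` we have `b_p v_p = 1`, so `v_p ≠ 0`, and this set is `SuppFam S p T₀ ∅ × 𝔸^(T₀) × 𝔾_m`; use `line`
and `torus`. (2) Induction on `T₁`: `SuppFam S p T₀ (insert l T₁)` is the part `v_l ≠ 0` of
`SuppFam S p T₀ T₁`, the part `v_l = 0` is `SuppFam S p (insert l T₀) T₁`. If `l = p` there is nothing to
do. `SuppFam S q T ∅` is `Rep`: it is the preimage of `PairFam S {q}` under `(x, v) ↦ (x, v, e_q)`, with the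
condition `v_q = 1`. -/
def PSupp : Prop := ∀ {R : Type} [CommRing R] (P : Sch R → Prop), Kit P →
  ∀ {σ V : Type} [Finite σ] [Fintype V] [DecidableEq V] (S : Fam R (σ ⊕ V)), Homog S →
    ∀ E : Finset V, (∀ J ⊆ E, J.Nonempty → Q P (PairFam S J)) →
      ∀ p ∈ E, ∀ T₀ ⊆ E, p ∉ T₀ → ∀ T₁ ⊆ E, Q P (SuppFam S p T₀ T₁)

/-- **Piece PCut.** Let `J` be contained in `{τ = 0}` and `N = (t, b; b, M)` a matrix of the pattern
`ext G J` with the vectors `u'_a = (0, u_a)`. The part `det (M + ind C) ≠ 0` of
`FlagFam (ext G J) (some ∘ C) (τ, with the value 0 at none)` is the product of `FlagFam G C τ`, of `𝔸^J`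
(the `b_l`) and of `𝔾_m` (the number `t - bᵀ (M + ind C)⁻¹ b`, as `det (N + ind) = (t - …) det (M + ind C)`),
so it has `Q`. (`u' = 0` at `none` by the flag, `b · u_a = 0` since the supports are disjoint.) By `closed`,
the part `det (M + ind C) = 0` has `Q`. On it put `D = M + ind C`, singular. `det (N + ind) = - bᵀ adj(D) b
≠ 0`, so the kernel of `D` is a line `K v` with `b · v ≠ 0`; `u_aᵀ D v = v (C a)`, so `v` vanishes on `C` and
`M v = 0`; normalized by `b · v = 1` it is `v = (D + b bᵀ)⁻¹ b` and `det (D + b bᵀ) = bᵀ adj(D) b`. If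
`M w = 0` and `w = 0` on `C`, then `D w = 0`. So `(N, u') ↦ ((M, u, v, b), t)` is a regular bijection onto
`PairFam (LineFam G C τ) J × 𝔸¹` (conversely `v` shows `det D = 0`, and `det (D + b bᵀ) ≠ 0`: if
`(D + b bᵀ) w = 0` then `0 = vᵀ (D + b bᵀ) w = b · w`, so `D w = 0`, as before `w (C a) = 0`, `M w = 0`,
`w = t v`, `t = b · w = 0`). `Rep` of the target: use `det (M + ind C + b bᵀ) ≠ 0` instead of the last two
conditions of `LineFam`. -/
def PCut : Prop := ∀ {R : Type} [CommRing R] (P : Sch R → Prop), Kit P →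
  ∀ {V : Type} [Fintype V] [DecidableEq V] {c : ℕ} (G : SimpleGraph V) (C : Fin c → V) (τ : V → ℕ)
    (J : Finset V), (∀ b, τ (C b) = b.1 + 1) → (∀ l ∈ J, τ l = 0) → Q P (FlagFam R G C τ) →
    Q P (FlagFam R (ext G J) (fun b => some (C b)) (fun o => o.elim 0 τ)) →
    Q P (PairFam (LineFam R G C τ) J)

/-- **Piece PCons.** For `C' = cons p C` and `τ' (C' b) = b + 1`, put `τ l = τ' l - 1`; then
`FlagFam G C' τ'` is (rename the coordinates: `u' 0 = v`, `u' (a + 1) = u a`) the family
`SuppFam (LineFam G C τ) p {l | τ' l = 0} {l | τ' l = 1}`: `M + ind C'` is invertible iff `w ∈ ker M`,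
`w = 0` on `C` and `w p = 0` imply `w = 0` (use `u'` and the symmetry of `M`: `u'_aᵀ (M + ind C') w =
w (C' a)`), and with `v p = 1` this is the last condition of `LineFam`. -/
def PCons : Prop := ∀ {R : Type} [CommRing R] (P : Sch R → Prop), Kit P →
  ∀ {V : Type} [Fintype V] [DecidableEq V] {c : ℕ} (G : SimpleGraph V) (C : Fin c → V) (p : V)
    (τ' : V → ℕ), (∀ b, τ' ((Fin.cons p C : Fin (c + 1) → V) b) = b.1 + 1) →
    Q P (SuppFam (LineFam R G C fun l => τ' l - 1) p (Finset.univ.filter fun l => τ' l = 0)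
      (Finset.univ.filter fun l => τ' l = 1)) →
    Q P (FlagFam R G (Fin.cons p C : Fin (c + 1) → V) τ')

/-- **Piece PHom.** `LineFam` is homogeneous. -/
def PHom : Prop := ∀ {R : Type} [CommRing R] {V : Type} [Fintype V] [DecidableEq V] {c : ℕ}
  (G : SimpleGraph V) (C : Fin c → V) (τ : V → ℕ), Homog (LineFam R G C τ)

/-- **Piece PFlags.** If `Q` is true for all flags, it is true without flags. For `h : V → ℕ` and a
finite set `F` of vertices let `S h F` be the set of the `(M, u)` in `CoFam` with `u a l = 0` for `a ≥ h l`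
and, for `l ∈ F` with `h l ≥ 1`, `u (h l - 1) l ≠ 0`. For `F` = everything and `h ≤ c` this is `FlagFam G C h`
(if `h (C b) ≠ b + 1` for some `b`, it is empty: use `opened` with `e = 0`, or `e = 1` and `closed`, from
any set with `Q`). Induction on `∑ h` over `l ∉ F`: split by `e = u (h l - 1) l` (if `h l ≥ 1`), use `total`;
start with `h = c`, `F = ∅`. -/
def PFlags : Prop := ∀ {R : Type} [CommRing R] (P : Sch R → Prop), Kit P →
  ∀ {V : Type} [Fintype V] [DecidableEq V] {c : ℕ} (G : SimpleGraph V) (C : Fin c → V),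
    Function.Injective C →
    (∀ τ : V → ℕ, (∀ b, τ (C b) = b.1 + 1) → Q P (FlagFam R G C τ)) → Q P (CoFam R G C)

/-- **Piece PInc.** Let `V = H ⊕ (I ⊕ J)`, `C` an enumeration of `I ⊕ J`, and `G` the graph on `V` without
edges in `H`, with all edges in `I` and all edges in `J`, with the edges `h i` for `sI i h`, `h j` for
`sJ j h` and with the edges `i j` for the pairs which are not in `Ω`. For `(M, u)` in `CoFam G C`: if
`a_h = M_hh` is `0`, then `u` and `M u = 0` in the row `h` show that this row of `M` is zero, and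
`det (M + ind C) = 0`. So `a_h ≠ 0`, `u_{c,h} = - M_hc / a_h`, and `M_cc' = ∑_h M_ch M_c'h / a_h` for all
`c, c'` in `I ⊕ J`; conversely these formulas define a point (`M + ind C` is congruent to `diag (a) ⊕ 1`). So
`CoFam G C` is the product of `𝔾_m^H` (the `a_h`) and of `IncFam sI sJ Ω` with `r_ih = M_ih / a_h` and
`s_jh = M_jh`. Use `iso` and `torus`. -/
def PInc : Prop := ∀ {R : Type} [CommRing R] (P : Sch R → Prop), Kit P →
  (∀ {V : Type} [Fintype V] [DecidableEq V] {c : ℕ} (G : SimpleGraph V) (C : Fin c → V),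
    Function.Injective C → Q P (CoFam R G C)) →
  ∀ {I J H : Type} [Fintype I] [Fintype J] [Fintype H] (sI : I → H → Prop) (sJ : J → H → Prop)
    (Ω : I → J → Prop), Q P (IncFam R sI sJ Ω)

/-- **Piece PNon.** Induction on `F` (for all supports): the part of `IncNFam sI sJ Ω F` where the entry `e`
is zero is `IncNFam` with `e` removed from the supports (empty if `e ∈ F`), the part where it is not zero
is `IncNFam sI sJ Ω (insert e F)`; use `opened` with the variable of `e`. -/
def PNon : Prop := ∀ {R : Type} [CommRing R] (P : Sch R → Prop), Kit P →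
  ∀ {I J H : Type} [Fintype I] [Fintype J] [Fintype H] (Ω : I → J → Prop),
    (∀ (sI : I → H → Prop) (sJ : J → H → Prop), Q P (IncFam R sI sJ Ω)) →
    ∀ (sI : I → H → Prop) (sJ : J → H → Prop) (F : Finset ((I × H) ⊕ (J × H))),
      Q P (IncNFam R sI sJ Ω F)

/-- **Piece PSys.** Let `T = {(l, i, j) | (i, j) ∈ E l}`. The coordinates are `H = Fin a ⊔ Fin b ⊔ T ⊔ {∞}`
(write `α_i, β_j, h, ∞`). Rows: `ω` with support `α, β, T`; `r` with support `α, T`; for `h = (l,i,j)` a row
`d'_h` with support `β_j, h`; for `j` a row `γ_j` with support `β_j, ∞`. Columns: for `h = (l,i,j)` the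
columns `d_h` with support `α_i, h` and `e_h` with support `β_j, h`; for `l` a column `c_l` with support
`∞`, `β` and the `h` with first component `l`. Orthogonality is asked for `(ω, d_h)`, `(ω, e_h)`,
`(r, d_h)`, `(d'_h, e_h)`, `(γ_j, c_l)`, `(d'_h, c_l)` for `h = (l,i,j)`, and `(r, c_l)`. Nonzero entries `F`:
`μ_k` (the entries of `ω` at `k ∈ α, β, T`), `δ_h = (d_h)_α`, `ε_h = (e_h)_β`, `δ'_h = (d'_h)_β`,
`g_j = (γ_j)_β`, `κ_l = (c_l)_∞`. The other entries are then determined by `r_{α_i}` and `z_j = (γ_j)_∞`: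
`(d_h)_h = - μ_α δ_h / μ_h`, `(e_h)_h = - μ_β ε_h / μ_h`, `r_h = r_α μ_h / μ_α`,
`(d'_h)_h = δ'_h μ_h / μ_β`, `(c_l)_{β_j} = - z_j κ_l / g_j`, `(c_l)_h = z_j κ_l μ_β / (g_j μ_h)`,
and `r · c_l = κ_l ∑_{(i,j) ∈ E l} x_i y_j` with `x_i = r_{α_i} / μ_{α_i}` and `y_j = z_j μ_{β_j} / g_j`. So
`IncNFam … F` is the product of `SysFam E` and of `𝔾_m^F`. -/
def PSys : Prop := ∀ {R : Type} [CommRing R] (P : Sch R → Prop), Kit P →
  (∀ {I J H : Type} [Fintype I] [Fintype J] [Fintype H] (sI : I → H → Prop) (sJ : J → H → Prop)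
    (Ω : I → J → Prop) (F : Finset ((I × H) ⊕ (J × H))), Q P (IncNFam R sI sJ Ω F)) →
  ∀ {a b c : ℕ} (E : Fin c → Finset (Fin a × Fin b)), Q P (SysFam R E)

/-- **Piece PEnd.** `Kit.iso` with `f = g = id` gives `P` for the presentation of `SysFam` by the polynomials
`few R (E l)` and `w = 1`; then `oneE` in `Z125/UN/Pc.lean` and `GClo.iso` (see `iso_alg`). -/
def PEnd : Prop := ∀ {R : Type} [CommRing R] (sep : Prop) (P : Sch R → Prop), GClo sep P → Kit P →
  ∀ {a b c : ℕ} (E : Fin c → Finset (Fin a × Fin b)), Q P (SysFam R E) → P (sysS R E)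

/-- **Piece PStart.** For `V` with `n` elements (number them), let `Γ` be the graph with the vertices
`0, …, n` in which `0` is joined to all other vertices and `i + 1, j + 1` are joined if `i, j` are
joined in `G`. The coordinates `M_ij = - x_{i+1,j+1}` and `M_ii = x_{0,i+1} + ∑_{j ~ i} x_{i+1,j+1}` identify
`FlagFam G C τ` for `c = 0` (`ind C = 0`, no conditions on `u`) with `kirch Γ ≠ 0`. `P (ghS R Γ)` gives
`P (aff R (Pc (no relations) (kirch R Γ)))`; then `iso`. -/
def PStart : Prop := ∀ {R : Type} [CommRing R] (sep : Prop) (P : Sch R → Prop), GClo sep P → Kit P →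
  ForGraphs P → ∀ {V : Type} [Fintype V] [DecidableEq V] (G : SimpleGraph V) (C : Fin 0 → V)
    (τ : V → ℕ), Q P (FlagFam R G C τ)

/-- **Piece PTree** (matrix-tree theorem; the base ring can be `ℤ`): the Kirchhoff polynomial is the sum
over the spanning trees of the products of the variables of the edges. -/
def PTree : Prop := ∀ {R : Type} [CommRing R] {n : ℕ} (Γ : SimpleGraph (Fin (n + 1))),
  open Classical in
  kirch R Γ = ∑ T ∈ Finset.univ.filter (fun T : Finset Γ.edgeSet =>
    (SimpleGraph.fromEdgeSet (Subtype.val '' (T : Set Γ.edgeSet))).IsTree), ∏ e ∈ T, X e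

end Run7.h570.GH
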