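import Pool.Agent.Run7.h570.GH.Ops

/-!
# Graph hypersurfaces: the assembly
-/

set_option autoImplicit false

open CategoryTheory AlgebraicGeometry MvPolynomial Pool.Agent.Y116.UV Pool.Agent.Z125.UN
  Pool.Agent.Q282.UZ

namespace Run7.h570.GH

variable {R : Type} [CommRing R] {sep : Prop} {P : Sch R → Prop}

/-- The closure properties `Bnd` imply `GClo`. -/
theorem gclo_of_bnd (hP : Bnd sep P) : GClo sep P where
  iso := hP.iso
  total := hP.total
  opened := hP.opened
  torus := hP.torus
  closed := hP.closed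
  line A _ _ _ := by
    refine ⟨fun h => ?_, fun h => p_poly_fin hP 1 h⟩
    have h1 : IsOpenImmersion (𝟙 (aff R A) : aff R A ⟶ aff R A).left :=
      inferInstanceAs (IsOpenImmersion (𝟙 (aff R A).left))
    have h2 : Set.range (𝟙 (aff R A) : aff R A ⟶ aff R A).left =
        {x : PrimeSpectrum A | ∃ l, f1 A 1 l ∉ x.asIdeal} := by
      have h1 : Set.range (𝟙 (aff R A) : aff R A ⟶ aff R A).left = Set.univ := Set.range_id
      have h2 : {x : PrimeSpectrum A | ∃ l, f1 A 1 l ∉ x.asIdeal} = Set.univ := by
        rw [Set.eq_univ_iff_forall]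
        intro x
        exact ⟨0, fun h => x.isPrime.ne_top ((Ideal.eq_top_iff_one _).mpr h)⟩
      exact h1.trans h2.symm
    refine hP.jouanolou A 2 (f1 A 1) (aff R A) (𝟙 _) h1 h2 ?_
    have h3 : Algebra.FiniteType R (MvPolynomial (Fin 1) A) :=
      Algebra.FiniteType.trans (S := A) inferInstance inferInstance
    exact iso_alg hP.toUni ((jouOne A 1).symm.restrictScalars R) h

section

variable (hK : Kit P) (hSupp : PSupp) (hCut : PCut) (hCons : PCons) (hHom : PHom)

include hK hSupp hCut hCons hHom

/-- All flags. -/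
theorem all_flags
    (h0 : ∀ {V : Type} [Fintype V] [DecidableEq V] (G : SimpleGraph V) (C : Fin 0 → V) (τ : V → ℕ),
      Q P (FlagFam R G C τ)) (c : ℕ) :
    ∀ {V : Type} [Fintype V] [DecidableEq V] (G : SimpleGraph V) (C : Fin c → V) (τ : V → ℕ),
      (∀ b, τ (C b) = b.1 + 1) → Q P (FlagFam R G C τ) := by
  induction c with
  | zero =>
    intro V _ _ G C τ _
    exact h0 G C τ
  | succ c ih =>
    intro V _ _ G C τ hτ
    have hC : C = (Fin.cons (C 0) (Fin.tail C) : Fin (c + 1) → V) := (Fin.cons_self_tail C).symm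
    rw [hC]
    have hp : τ (C 0) = 1 := by
      have := hτ 0
      simpa using this
    have ht : ∀ b, τ (Fin.tail C b) - 1 = b.1 + 1 := by
      intro b
      have := hτ b.succ
      rw [Fin.val_succ] at this
      change τ (C b.succ) - 1 = b.1 + 1
      omega
    refine hCons P hK G (Fin.tail C) (C 0) τ ?_ ?_
    · rw [← hC]
      exact hτ
    · refine hSupp P hK (LineFam R G (Fin.tail C) fun l => τ l - 1) (hHom _ _ _)
        (Finset.univ.filter fun l => τ l - 1 = 0) ?_ (C 0) ?_ _ ?_ ?_ _ ?_
      · intro J hJ _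
        have hJ' : ∀ l ∈ J, (fun l => τ l - 1) l = 0 := fun l hl =>
          (Finset.mem_filter.mp (hJ hl)).2
        exact hCut P hK G (Fin.tail C) (fun l => τ l - 1) J ht hJ' (ih G (Fin.tail C) _ ht)
          (ih (ext G J) _ _ fun b => ht b)
      · simp [hp]
      · intro l hl
        simp only [Finset.mem_filter, Finset.mem_univ, true_and] at hl ⊢
        omega
      · simp [hp]
      · intro l hl
        simp only [Finset.mem_filter, Finset.mem_univ, true_and] at hl ⊢
        omega

end

/-- The main theorem, from the pieces. -/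
theorem graphs_iff_of (hS : ShortPresents R) (hP : GClo sep P) (hKit : PKit) (hSupp : PSupp)
    (hCut : PCut) (hCons : PCons) (hHom : PHom) (hFlags : PFlags) (hInc : PInc) (hNon : PNon)
    (hSys : PSys) (hEnd : PEnd) (hStart : PStart) :
    (∀ X : Sch R, FT sep X → P X) ↔ ForGraphs P := by
  constructor
  · intro h n Γ
    exact h _ (ft_aff sep)
  · intro h
    have hK : Kit P := hKit sep P hP
    have h1 : ∀ c, ∀ {V : Type} [Fintype V] [DecidableEq V] (G : SimpleGraph V) (C : Fin c → V)
        (τ : V → ℕ), (∀ b, τ (C b) = b.1 + 1) → Q P (FlagFam R G C τ) :=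
      fun c => all_flags hK hSupp hCut hCons hHom (fun G C τ => hStart sep P hP hK h G C τ) c
    have h2 : ∀ {V : Type} [Fintype V] [DecidableEq V] {c : ℕ} (G : SimpleGraph V) (C : Fin c → V),
        Function.Injective C → Q P (CoFam R G C) :=
      fun G C hC => hFlags P hK G C hC fun τ hτ => h1 _ G C τ hτ
    have h3 : ∀ {I J H : Type} [Fintype I] [Fintype J] [Fintype H] (sI : I → H → Prop)
        (sJ : J → H → Prop) (Ω : I → J → Prop), Q P (IncFam R sI sJ Ω) :=
      fun sI sJ Ω => hInc P hK (fun G C hC => h2 G C hC) sI sJ Ω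
    have h4 : ∀ {I J H : Type} [Fintype I] [Fintype J] [Fintype H] (sI : I → H → Prop)
        (sJ : J → H → Prop) (Ω : I → J → Prop) (F : Finset ((I × H) ⊕ (J × H))),
        Q P (IncNFam R sI sJ Ω F) :=
      fun sI sJ Ω F => hNon P hK Ω (fun sI sJ => h3 sI sJ Ω) sI sJ F
    refine (three_iff hS hP.toClo).mpr ?_
    intro a b c E _
    exact hEnd sep P hP hK E (hSys P hK (fun sI sJ Ω F => h4 sI sJ Ω F) E)

/-- The kit, from its pieces. -/
theorem kit_of (h1 : PIso) (h2 : PSplit) (h3 : PLine) (h4 : PTorus) : PKit := by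
  intro R _ sep P hP
  exact
    { iso := h1 sep P hP
      total := fun S e => (h2 sep P hP S e).1
      opened := fun S e => (h2 sep P hP S e).2.1
      closed := fun S e => (h2 sep P hP S e).2.2
      line := fun S => h3 sep P hP S
      torus := fun S => h4 sep P hP S }

end Run7.h570.GH
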