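import Pool.Agent.Run7.h570.GH.Iface

/-!
# Regular functions and representable families: closure lemmas
-/

set_option autoImplicit false

open CategoryTheory AlgebraicGeometry MvPolynomial Pool.Agent.Y116.UV Pool.Agent.Z125.UN
  Pool.Agent.Q282.UZ

namespace Run7.h570.GH

variable {R : Type} [CommRing R] {σ τ : Type} {S T : Fam R σ}

section Rg

lemma Rg.mono (h : ∀ (K : Type) [Field K] [Algebra R K] (x : σ → K), T K x → S K x) {F : Fun R σ}
    (hF : Rg S F) : Rg T F := by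
  obtain ⟨n, d, h1⟩ := hF
  exact ⟨n, d, fun K _ _ x hx => h1 K x (h K x hx)⟩

lemma Rg.congr {F F' : Fun R σ} (hF : Rg S F)
    (h : ∀ (K : Type) [Field K] [Algebra R K] (x : σ → K), S K x → F K x = F' K x) : Rg S F' := by
  obtain ⟨n, d, h1⟩ := hF
  exact ⟨n, d, fun K _ _ x hx => by rw [← h K x hx]; exact h1 K x hx⟩

lemma Rg.poly (p : MvPolynomial σ R) : Rg S fun _ _ _ x => aeval x p :=
  ⟨p, 1, fun K _ _ x _ => by simp⟩

lemma Rg.coord (s : σ) : Rg S fun _ _ _ x => x s :=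
  ⟨X s, 1, fun K _ _ x _ => by simp⟩

lemma Rg.const (r : R) : Rg S fun K _ _ _ => algebraMap R K r :=
  ⟨C r, 1, fun K _ _ x _ => by simp⟩

lemma Rg.zero : Rg S fun _ _ _ _ => 0 := ⟨0, 1, fun K _ _ x _ => by simp⟩

lemma Rg.one : Rg S fun _ _ _ _ => 1 := ⟨1, 1, fun K _ _ x _ => by simp⟩

variable {F F' : Fun R σ}

lemma Rg.add (h : Rg S F) (h' : Rg S F') : Rg S fun K _ _ x => F K x + F' K x := by
  obtain ⟨n, d, h1⟩ := h
  obtain ⟨n', d', h2⟩ := h'
  refine ⟨n * d' + n' * d, d * d', fun K _ _ x hx => ?_⟩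
  obtain ⟨a, b⟩ := h1 K x hx
  obtain ⟨a', b'⟩ := h2 K x hx
  refine ⟨by rw [map_mul]; exact mul_ne_zero a a', ?_⟩
  rw [map_add, map_mul, map_mul, map_mul, ← b, ← b']
  ring

lemma Rg.mul (h : Rg S F) (h' : Rg S F') : Rg S fun K _ _ x => F K x * F' K x := by
  obtain ⟨n, d, h1⟩ := h
  obtain ⟨n', d', h2⟩ := h'
  refine ⟨n * n', d * d', fun K _ _ x hx => ?_⟩
  obtain ⟨a, b⟩ := h1 K x hx
  obtain ⟨a', b'⟩ := h2 K x hx
  refine ⟨by rw [map_mul]; exact mul_ne_zero a a', ?_⟩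
  rw [map_mul, map_mul, ← b, ← b']
  ring

lemma Rg.neg (h : Rg S F) : Rg S fun K _ _ x => - F K x := by
  obtain ⟨n, d, h1⟩ := h
  refine ⟨-n, d, fun K _ _ x hx => ?_⟩
  obtain ⟨a, b⟩ := h1 K x hx
  refine ⟨a, ?_⟩
  rw [map_neg, ← b]
  ring

lemma Rg.sub (h : Rg S F) (h' : Rg S F') : Rg S fun K _ _ x => F K x - F' K x :=
  (h.add h'.neg).congr fun K _ _ x _ => (sub_eq_add_neg _ _).symm

lemma Rg.inv (h : Rg S F)
    (h0 : ∀ (K : Type) [Field K] [Algebra R K] (x : σ → K), S K x → F K x ≠ 0) :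
    Rg S fun K _ _ x => (F K x)⁻¹ := by
  obtain ⟨n, d, h1⟩ := h
  refine ⟨d, n, fun K _ _ x hx => ?_⟩
  obtain ⟨a, b⟩ := h1 K x hx
  have hF := h0 K x hx
  rw [← b]
  exact ⟨mul_ne_zero hF a, by field_simp⟩

lemma Rg.div (h : Rg S F) (h' : Rg S F')
    (h0 : ∀ (K : Type) [Field K] [Algebra R K] (x : σ → K), S K x → F' K x ≠ 0) :
    Rg S fun K _ _ x => F K x / F' K x :=
  (h.mul (h'.inv h0)).congr fun K _ _ x _ => (div_eq_mul_inv _ _).symm

lemma Rg.sum {ι : Type} (s : Finset ι) (f : ι → Fun R σ) (h : ∀ i ∈ s, Rg S (f i)) :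
    Rg S fun K _ _ x => ∑ i ∈ s, f i K x := by
  classical
  induction s using Finset.induction_on with
  | empty => exact Rg.zero.congr fun K _ _ x _ => by simp
  | insert a s ha ih =>
    exact ((h a (Finset.mem_insert_self _ _)).add
      (ih fun i hi => h i (Finset.mem_insert_of_mem hi))).congr fun K _ _ x _ => by
        rw [Finset.sum_insert ha]

lemma Rg.prod {ι : Type} (s : Finset ι) (f : ι → Fun R σ) (h : ∀ i ∈ s, Rg S (f i)) :
    Rg S fun K _ _ x => ∏ i ∈ s, f i K x := by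
  classical
  induction s using Finset.induction_on with
  | empty => exact Rg.one.congr fun K _ _ x _ => by simp
  | insert a s ha ih =>
    exact ((h a (Finset.mem_insert_self _ _)).mul
      (ih fun i hi => h i (Finset.mem_insert_of_mem hi))).congr fun K _ _ x _ => by
        rw [Finset.prod_insert ha]

lemma Rg.ite {c : Prop} [Decidable c] (h : Rg S F) (h' : Rg S F') :
    Rg S fun K _ _ x => if c then F K x else F' K x := by
  by_cases hc : c
  · exact h.congr fun K _ _ x _ => by simp [hc]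
  · exact h'.congr fun K _ _ x _ => by simp [hc]

/-- Determinants of matrices with regular entries are regular. -/
lemma Rg.det {m : Type} [Fintype m] [DecidableEq m] (f : m → m → Fun R σ)
    (h : ∀ i j, Rg S (f i j)) :
    Rg S fun K _ _ x => Matrix.det (Matrix.of fun i j => f i j K x) := by
  refine Rg.congr (F := fun K _ _ x => ∑ p : Equiv.Perm m, ((Equiv.Perm.sign p : ℤ) : K) *
    ∏ i, f (p i) i K x) ?_ fun K _ _ x _ => ?_
  · refine Rg.sum _ _ fun p _ => Rg.mul ?_ (Rg.prod _ _ fun i _ => h _ _)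
    exact (Rg.const (((Equiv.Perm.sign p : ℤ) : R))).congr fun K _ _ x _ => by simp
  · rw [Matrix.det_apply']
    rfl

/-- The entries of the adjugate are regular. -/
lemma Rg.adjugate {m : Type} [Fintype m] [DecidableEq m] (f : m → m → Fun R σ)
    (h : ∀ i j, Rg S (f i j)) (k l : m) :
    Rg S fun K _ _ x => Matrix.adjugate (Matrix.of fun i j => f i j K x) k l := by
  refine Rg.congr (Rg.det (fun i j => if i = l then (fun K _ _ _ => if j = k then 1 else 0) else f i j)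
    ?_) fun K _ _ x _ => ?_
  · intro i j
    split_ifs
    · exact Rg.one.congr fun K _ _ x _ => by simp [*]
    · exact Rg.zero.congr fun K _ _ x _ => by simp [*]
    · exact h i j
  · rw [Matrix.adjugate_apply]
    congr 1
    ext i j
    by_cases hi : i = l
    · subst hi
      simp [Matrix.updateRow_apply, Pi.single_apply]
    · simp [Matrix.updateRow_apply, hi]

/-- The entries of the inverse of an invertible matrix are regular. -/
lemma Rg.inverse {m : Type} [Fintype m] [DecidableEq m] (f : m → m → Fun R σ)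
    (h : ∀ i j, Rg S (f i j)) (h0 : ∀ (K : Type) [Field K] [Algebra R K] (x : σ → K), S K x →
      Matrix.det (Matrix.of fun i j => f i j K x) ≠ 0) (k l : m) :
    Rg S fun K _ _ x => (Matrix.of fun i j => f i j K x)⁻¹ k l := by
  refine Rg.congr (((Rg.det f h).inv h0).mul (Rg.adjugate f h k l)) fun K _ _ x hx => ?_
  rw [Matrix.inv_def, Matrix.smul_apply, Ring.inverse_eq_inv', smul_eq_mul]

/-- A regular function of new coordinates which are regular functions. -/
lemma Rg.comp {S' : Fam R τ} {F : Fun R τ} (hF : Rg S' F) (f : τ → Fun R σ)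
    (hf : ∀ t, Rg S (f t))
    (h : ∀ (K : Type) [Field K] [Algebra R K] (x : σ → K), S K x → S' K fun t => f t K x) :
    Rg S fun K _ _ x => F K fun t => f t K x := by
  obtain ⟨n, d, h1⟩ := hF
  have hp : ∀ p : MvPolynomial τ R, Rg S fun K _ _ x => aeval (fun t => f t K x) p := by
    intro p
    induction p using MvPolynomial.induction_on with
    | C a => exact (Rg.const a).congr fun K _ _ x _ => by simp
    | add p q hp hq => exact (hp.add hq).congr fun K _ _ x _ => by simp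
    | mul_X p t hp => exact (hp.mul (hf t)).congr fun K _ _ x _ => by simp
  refine ((hp n).div (hp d) fun K _ _ x hx => (h1 K _ (h K x hx)).1).congr fun K _ _ x hx => ?_
  obtain ⟨a, b⟩ := h1 K _ (h K x hx)
  rw [← b]
  field_simp

end Rg

section Rep

lemma Rep.congr (hS : Rep S)
    (h : ∀ (K : Type) [Field K] [Algebra R K] (x : σ → K), S K x ↔ T K x) : Rep T := by
  obtain ⟨κ, G, w, h1⟩ := hS
  exact ⟨κ, G, w, fun K _ _ x => (h K x).symm.trans (h1 K x)⟩

lemma Rep.true : Rep (R := R) (σ := σ) fun _ _ _ _ => True :=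
  ⟨Empty, Empty.elim, 1, fun K _ _ x => by simp⟩

lemma Rep.and (hS : Rep S) (hT : Rep T) : Rep (R := R) fun K _ _ x => S K x ∧ T K x := by
  obtain ⟨κ, G, w, h1⟩ := hS
  obtain ⟨κ', G', w', h2⟩ := hT
  refine ⟨κ ⊕ κ', Sum.elim G G', w * w', fun K _ _ x => ?_⟩
  change (S K x ∧ T K x) ↔ _
  rw [h1 K x, h2 K x, map_mul, mul_ne_zero_iff, Sum.forall]
  simp only [Sum.elim_inl, Sum.elim_inr]
  tauto

lemma Rep.zero (p : MvPolynomial σ R) : Rep (R := R) fun K _ _ (x : σ → K) => aeval x p = 0 :=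
  ⟨Unit, fun _ => p, 1, fun K _ _ x => by simp⟩

lemma Rep.ne (p : MvPolynomial σ R) : Rep (R := R) fun K _ _ (x : σ → K) => aeval x p ≠ 0 :=
  ⟨Empty, Empty.elim, p, fun K _ _ x => by simp⟩

lemma Rep.and_zero (hS : Rep S) {F : Fun R σ} (hF : Rg S F) :
    Rep (R := R) fun K _ _ x => S K x ∧ F K x = 0 := by
  obtain ⟨n, d, h1⟩ := hF
  refine (hS.and (Rep.zero n)).congr fun K _ _ x => ?_
  constructor
  · rintro ⟨hx, h⟩
    obtain ⟨a, b⟩ := h1 K x hx
    refine ⟨hx, ?_⟩
    rw [h] at b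
    exact (mul_eq_zero.mp b).resolve_right a
  · rintro ⟨hx, h⟩
    obtain ⟨a, b⟩ := h1 K x hx
    refine ⟨hx, ?_⟩
    rw [← b, h, zero_mul]

lemma Rep.and_ne (hS : Rep S) {F : Fun R σ} (hF : Rg S F) :
    Rep (R := R) fun K _ _ x => S K x ∧ F K x ≠ 0 := by
  obtain ⟨n, d, h1⟩ := hF
  refine (hS.and (Rep.ne n)).congr fun K _ _ x => ?_
  constructor
  · rintro ⟨hx, h⟩
    obtain ⟨a, b⟩ := h1 K x hx
    refine ⟨hx, fun h2 => h ?_⟩
    rw [← b, h2, zero_mul]
  · rintro ⟨hx, h⟩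
    obtain ⟨a, b⟩ := h1 K x hx
    refine ⟨hx, ?_⟩
    rw [← b]
    exact mul_ne_zero h a

/-- Equality of two regular functions. -/
lemma Rep.and_eq (hS : Rep S) {F F' : Fun R σ} (hF : Rg S F) (hF' : Rg S F') :
    Rep (R := R) fun K _ _ x => S K x ∧ F K x = F' K x :=
  (hS.and_zero (hF.sub hF')).congr fun K _ _ x => by rw [sub_eq_zero]

lemma Rep.coord_zero (s : σ) : Rep (R := R) fun K _ _ (x : σ → K) => x s = 0 :=
  (Rep.zero (X s)).congr fun K _ _ x => by rw [aeval_X]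

lemma Rep.coord_ne (s : σ) : Rep (R := R) fun K _ _ (x : σ → K) => x s ≠ 0 :=
  (Rep.ne (X s)).congr fun K _ _ x => by rw [aeval_X]

/-- Equality of two regular functions on the whole space (take `S` to be everything). -/
lemma Rep.eq {F F' : Fun R σ} (hF : Rg (fun _ _ _ _ => True) F) (hF' : Rg (fun _ _ _ _ => True) F') :
    Rep (R := R) fun K _ _ (x : σ → K) => F K x = F' K x :=
  (Rep.true.and_eq hF hF').congr fun K _ _ x => by simp

lemma Rep.all {ι : Type} [Finite ι] (U : ι → Fam R σ) (h : ∀ i, Rep (U i)) :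
    Rep (R := R) fun K _ _ x => ∀ i, U i K x := by
  classical
  have := Fintype.ofFinite ι
  choose κ G w h1 using h
  refine ⟨(i : ι) × κ i, fun k => G k.1 k.2, ∏ i, w i, fun K _ _ x => ?_⟩
  rw [map_prod, Finset.prod_ne_zero_iff, Sigma.forall]
  constructor
  · intro hx
    exact ⟨fun i k => ((h1 i K x).mp (hx i)).1 k, fun i _ => ((h1 i K x).mp (hx i)).2⟩
  · rintro ⟨ha, hb⟩ i
    exact (h1 i K x).mpr ⟨fun k => ha i k, hb i (Finset.mem_univ i)⟩

/-- A condition which does not depend on the point. -/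
lemma Rep.imp {c : Prop} (hS : c → Rep S) : Rep (R := R) fun K _ _ x => c → S K x := by
  by_cases hc : c
  · exact (hS hc).congr fun K _ _ x => by simp [hc]
  · exact Rep.true.congr fun K _ _ x => by simp [hc]

/-- Preimages under polynomial maps. -/
lemma Rep.comap {T : Fam R τ} (hT : Rep T) (φ : τ → MvPolynomial σ R) :
    Rep (R := R) fun K _ _ (x : σ → K) => T K fun t => aeval x (φ t) := by
  obtain ⟨κ, G, w, h1⟩ := hT
  refine ⟨κ, fun k => bind₁ φ (G k), bind₁ φ w, fun K _ _ x => ?_⟩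
  change (T K fun t => aeval x (φ t)) ↔ _
  rw [h1 K]
  simp only [aeval_bind₁]

/-- Preimages under renaming of the coordinates. -/
lemma Rep.rename {T : Fam R τ} (hT : Rep T) (e : τ → σ) :
    Rep (R := R) fun K _ _ (x : σ → K) => T K fun t => x (e t) :=
  (hT.comap fun t => X (e t)).congr fun K _ _ x => by simp

lemma Q.rep {P : Sch R → Prop} (h : Q P S) : Rep S := by
  obtain ⟨κ, G, w, h1, _⟩ := h
  exact ⟨κ, G, w, h1⟩

lemma Q.congr {P : Sch R → Prop} (hS : Q P S)
    (h : ∀ (K : Type) [Field K] [Algebra R K] (x : σ → K), S K x ↔ T K x) : Q P T := by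
  obtain ⟨κ, G, w, h1, h2⟩ := hS
  exact ⟨κ, G, w, fun K _ _ x => (h K x).symm.trans (h1 K x), h2⟩

end Rep

section kit

variable {P : Sch R → Prop} (hK : Kit P)

include hK

lemma Kit.isoQ [Finite σ] [Finite τ] {S : Fam R σ} {T : Fam R τ} (hS : Q P S) (hT : Rep T)
    (f : ∀ (K : Type) [Field K] [Algebra R K], (σ → K) → τ → K)
    (g : ∀ (K : Type) [Field K] [Algebra R K], (τ → K) → σ → K)
    (hf : ∀ t, Rg S fun K _ _ x => f K x t) (hg : ∀ s, Rg T fun K _ _ y => g K y s)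
    (h1 : ∀ (K : Type) [Field K] [Algebra R K] (x : σ → K), S K x → T K (f K x))
    (h2 : ∀ (K : Type) [Field K] [Algebra R K] (y : τ → K), T K y → S K (g K y))
    (h3 : ∀ (K : Type) [Field K] [Algebra R K] (x : σ → K), S K x → g K (f K x) = x)
    (h4 : ∀ (K : Type) [Field K] [Algebra R K] (y : τ → K), T K y → f K (g K y) = y) : Q P T := by
  obtain ⟨κ, G, w, hG⟩ := hT
  exact ⟨κ, G, w, hG, hK.iso S T f g hf hg h1 h2 h3 h4 hS G w hG⟩

/-- Two out of three for a regular function `F`. -/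
lemma Kit.totalR [Finite σ] {F : Fun R σ} (hS : Rep S) (hF : Rg S F)
    (h0 : Q P fun K _ _ x => S K x ∧ F K x = 0) (h1 : Q P fun K _ _ x => S K x ∧ F K x ≠ 0) :
    Q P S := by
  obtain ⟨n, d, h⟩ := hF
  have e : ∀ (K : Type) [Field K] [Algebra R K] (x : σ → K), S K x → (F K x = 0 ↔ aeval x n = 0) := by
    intro K _ _ x hx
    obtain ⟨a, b⟩ := h K x hx
    rw [← b, mul_eq_zero]
    simp [a]
  refine hK.total S n hS (h0.congr fun K _ _ x => and_congr_right fun hx => e K x hx)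
    (h1.congr fun K _ _ x => and_congr_right fun hx => not_congr (e K x hx))

lemma Kit.openedR [Finite σ] {F : Fun R σ} (hS : Q P S) (hF : Rg S F)
    (h0 : Q P fun K _ _ x => S K x ∧ F K x = 0) : Q P fun K _ _ x => S K x ∧ F K x ≠ 0 := by
  obtain ⟨n, d, h⟩ := hF
  have e : ∀ (K : Type) [Field K] [Algebra R K] (x : σ → K), S K x → (F K x = 0 ↔ aeval x n = 0) := by
    intro K _ _ x hx
    obtain ⟨a, b⟩ := h K x hx
    rw [← b, mul_eq_zero]
    simp [a]
  exact (hK.opened S n hS (h0.congr fun K _ _ x => and_congr_right fun hx => e K x hx)).congr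
    fun K _ _ x => and_congr_right fun hx => not_congr (e K x hx).symm

lemma Kit.closedR [Finite σ] {F : Fun R σ} (hS : Q P S) (hF : Rg S F)
    (h1 : Q P fun K _ _ x => S K x ∧ F K x ≠ 0) : Q P fun K _ _ x => S K x ∧ F K x = 0 := by
  obtain ⟨n, d, h⟩ := hF
  have e : ∀ (K : Type) [Field K] [Algebra R K] (x : σ → K), S K x → (F K x = 0 ↔ aeval x n = 0) := by
    intro K _ _ x hx
    obtain ⟨a, b⟩ := h K x hx
    rw [← b, mul_eq_zero]
    simp [a]
  exact (hK.closed S n hS (h1.congr fun K _ _ x =>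
    and_congr_right fun hx => not_congr (e K x hx))).congr
    fun K _ _ x => and_congr_right fun hx => (e K x hx).symm

/-- The empty family has `Q`, if some family in the same space has `Q`. -/
lemma Kit.empty [Finite σ] {S : Fam R σ} (hS : Q P S) : Q P (σ := σ) fun (_ : Type) _ _ _ => False :=
  (hK.opened S 0 hS (hS.congr fun K _ _ x => by simp)).congr fun K _ _ x => by simp

/-- Renaming of the coordinates along an equivalence. -/
lemma Kit.rename [Finite σ] [Finite τ] (e : σ ≃ τ) {S : Fam R σ} (hS : Q P S) :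
    Q P fun K _ _ (y : τ → K) => S K fun s => y (e s) := by
  refine hK.isoQ hS (hS.rep.rename e) (fun K _ _ x t => x (e.symm t)) (fun K _ _ y s => y (e s))
    (fun t => Rg.coord _) (fun s => Rg.coord _) ?_ ?_ ?_ ?_
  · intro K _ _ x hx
    simpa using hx
  · intro K _ _ y hy
    exact hy
  · intro K _ _ x _
    simp
  · intro K _ _ y _
    simp

/-- A product with free coordinates `α` and nonzero coordinates `β` is isomorphic to `T`, so `T` has
`Q` if `S` has. -/
lemma Kit.of_prod {α β : Type} [Finite σ] [Finite τ] [Finite α] [Finite β] {S : Fam R σ}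
    {T : Fam R τ} (hS : Q P S) (hT : Rep T)
    (f : ∀ (K : Type) [Field K] [Algebra R K], ((σ ⊕ α) ⊕ β → K) → τ → K)
    (g : ∀ (K : Type) [Field K] [Algebra R K], (τ → K) → (σ ⊕ α) ⊕ β → K)
    (hf : ∀ t, Rg (R := R) (fun K _ _ (x : (σ ⊕ α) ⊕ β → K) => (S K fun s => x (Sum.inl (Sum.inl s))) ∧
      ∀ t, x (Sum.inr t) ≠ 0) fun K _ _ x => f K x t)
    (hg : ∀ s, Rg T fun K _ _ y => g K y s)
    (h1 : ∀ (K : Type) [Field K] [Algebra R K] (x : (σ ⊕ α) ⊕ β → K),
      (S K fun s => x (Sum.inl (Sum.inl s))) → (∀ t, x (Sum.inr t) ≠ 0) → T K (f K x))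
    (h2 : ∀ (K : Type) [Field K] [Algebra R K] (y : τ → K), T K y →
      (S K fun s => g K y (Sum.inl (Sum.inl s))) ∧ ∀ t, g K y (Sum.inr t) ≠ 0)
    (h3 : ∀ (K : Type) [Field K] [Algebra R K] (x : (σ ⊕ α) ⊕ β → K),
      (S K fun s => x (Sum.inl (Sum.inl s))) → (∀ t, x (Sum.inr t) ≠ 0) → g K (f K x) = x)
    (h4 : ∀ (K : Type) [Field K] [Algebra R K] (y : τ → K), T K y → f K (g K y) = y) : Q P T :=
  hK.isoQ ((hK.torus _).mpr ((hK.line S).mpr hS)) hT f g hf hg
    (fun K _ _ x hx => h1 K x hx.1 hx.2) h2 (fun K _ _ x hx => h3 K x hx.1 hx.2) h4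

/-- If `T` is isomorphic to a product of `S` with free coordinates `α` and nonzero coordinates `β`, then `S`
has `Q` if `T` has. -/
lemma Kit.to_prod {α β : Type} [Finite σ] [Finite τ] [Finite α] [Finite β] {S : Fam R σ}
    {T : Fam R τ} (hT : Q P T) (hS : Rep S)
    (f : ∀ (K : Type) [Field K] [Algebra R K], ((σ ⊕ α) ⊕ β → K) → τ → K)
    (g : ∀ (K : Type) [Field K] [Algebra R K], (τ → K) → (σ ⊕ α) ⊕ β → K)
    (hf : ∀ t, Rg (R := R) (fun K _ _ (x : (σ ⊕ α) ⊕ β → K) => (S K fun s => x (Sum.inl (Sum.inl s))) ∧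
      ∀ t, x (Sum.inr t) ≠ 0) fun K _ _ x => f K x t)
    (hg : ∀ s, Rg T fun K _ _ y => g K y s)
    (h1 : ∀ (K : Type) [Field K] [Algebra R K] (x : (σ ⊕ α) ⊕ β → K),
      (S K fun s => x (Sum.inl (Sum.inl s))) → (∀ t, x (Sum.inr t) ≠ 0) → T K (f K x))
    (h2 : ∀ (K : Type) [Field K] [Algebra R K] (y : τ → K), T K y →
      (S K fun s => g K y (Sum.inl (Sum.inl s))) ∧ ∀ t, g K y (Sum.inr t) ≠ 0)
    (h3 : ∀ (K : Type) [Field K] [Algebra R K] (x : (σ ⊕ α) ⊕ β → K),
      (S K fun s => x (Sum.inl (Sum.inl s))) → (∀ t, x (Sum.inr t) ≠ 0) → g K (f K x) = x)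
    (h4 : ∀ (K : Type) [Field K] [Algebra R K] (y : τ → K), T K y → f K (g K y) = y) : Q P S := by
  have h : Q P fun K _ _ (x : (σ ⊕ α) ⊕ β → K) =>
      (S K fun s => x (Sum.inl (Sum.inl s))) ∧ ∀ t, x (Sum.inr t) ≠ 0 := by
    refine hK.isoQ hT ?_ g f hg hf h2 (fun K _ _ x hx => h1 K x hx.1 hx.2) h4
      (fun K _ _ x hx => h3 K x hx.1 hx.2)
    exact (hS.rename fun s => Sum.inl (Sum.inl s)).and (Rep.all _ fun t => Rep.coord_ne _)
  exact (hK.line S).mp ((hK.torus _).mp h)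

end kit

end Run7.h570.GH
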