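import Pool.Agent.Run7.h570.GH.Res
import Pool.Agent.Q282.UZ.Ord
import Pool.Agent.Q193.Zeta.Final

/-!
# The order formula for zeta functions and graph hypersurfaces
-/

set_option autoImplicit false

open CategoryTheory CategoryTheory.Limits AlgebraicGeometry Pool.Agent.Y116.UV Pool.Agent.Q193.LT
  Pool.Agent.Q193.Zeta Pool.Agent.Q282.UK Pool.Agent.Q282.UZ Filter Topology

universe w

namespace Run7.h570.GH

/-- Homotopy invariance: `A m k (X × 𝔸¹) = A (m - 1) k X` for affine `X`. -/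
def Line (A : ℤ → ℤ → Sch ℤ → ModuleCat.{w} ℚ) : Prop :=
  ∀ (B : Type) [CommRing B] [Algebra ℤ B] [Algebra.FiniteType ℤ B] (m k : ℤ),
    Nonempty (A m k (aff ℤ (MvPolynomial (Fin 1) B)) ≅ A (m - 1) k (aff ℤ B))

section fin

variable {A : ℤ → Sch ℤ → ModuleCat.{w} ℚ} {Z X U : Sch ℤ} {m : LesMaps A (Equiv.subRight 1) Z X U}

lemma fin_closed (h : m.IsExact) (hX : FinRank A X) (hU : FinRank A U) : FinRank A Z := by
  have key : ∀ k : ℤ, (Subsingleton (A (k + 1) U) → Subsingleton (A k X) → Subsingleton (A k Z)) ∧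
      Module.Finite ℚ (A k Z) := by
    intro k
    have h4 := h.hf (k + 1)
    have h5 : (Equiv.subRight (1 : ℤ)) (k + 1) = k := by simp
    have h6 : ∀ (l' : ℤ) (q : A (k + 1) U ⟶ A l' Z), l' = k → ExactAt q (m.f l') →
        (Subsingleton (A (k + 1) U) → Subsingleton (A k X) → Subsingleton (A k Z)) ∧
          Module.Finite ℚ (A k Z) := by
      intro l' q hl hq
      subst hl
      exact ⟨fun h1 h2 => sub_mid hq h1 h2, serre_exact serre_finite hq (hU.1 _) (hX.1 _)⟩
    exact h6 _ (m.h (k + 1)) h5 h4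
  refine ⟨fun k => (key k).2,
    (hX.2.union (hU.2.preimage (Equiv.injective (Equiv.addRight (1 : ℤ))).injOn)).subset
      fun k hk => ?_⟩
  by_contra h2
  rw [Set.mem_union, not_or] at h2
  exact hk ((key k).1 (not_not.mp h2.2) (not_not.mp h2.1))

end fin

/-- `ζ(X × 𝔸¹, s) = ζ(X, s - 1)` -/
lemma zeta_line (B : Type) [CommRing B] [Algebra ℤ B] [Algebra.FiniteType ℤ B] :
    ∃ τ : ℝ, ∀ s : ℂ, τ < s.re →
      zeta (aff ℤ (MvPolynomial (Fin 1) B)).left s = zeta (aff ℤ B).left (s - 1) := by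
  have h1 : IsOpenImmersion (𝟙 (aff ℤ B) : aff ℤ B ⟶ aff ℤ B).left :=
    inferInstanceAs (IsOpenImmersion (𝟙 (aff ℤ B).left))
  have h2 : Set.range (𝟙 (aff ℤ B) : aff ℤ B ⟶ aff ℤ B).left =
      {x : PrimeSpectrum B | ∃ l, f1 B 1 l ∉ x.asIdeal} := by
    have h1 : Set.range (𝟙 (aff ℤ B) : aff ℤ B ⟶ aff ℤ B).left = Set.univ := Set.range_id
    have h2 : {x : PrimeSpectrum B | ∃ l, f1 B 1 l ∉ x.asIdeal} = Set.univ := by
      rw [Set.eq_univ_iff_forall]
      intro x
      exact ⟨0, fun h => x.isPrime.ne_top ((Ideal.eq_top_iff_one _).mpr h)⟩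
    exact h1.trans h2.symm
  obtain ⟨τ, hτ⟩ := zeta_jou (f1 B 1) (ft_aff False) h1 h2
  have h3 : FT False (aff ℤ (MvPolynomial (Fin 1) B)) := by
    have : Algebra.FiniteType ℤ (MvPolynomial (Fin 1) B) :=
      Algebra.FiniteType.trans (S := B) inferInstance inferInstance
    exact ft_aff False
  obtain ⟨τ', hτ'⟩ := zeta_iso h3 ⟨affIso ((jouOne B 1).restrictScalars ℤ)⟩
  refine ⟨max τ τ', fun s hs => ?_⟩
  rw [hτ' s (lt_of_le_of_lt (le_max_right _ _) hs), hτ s (lt_of_le_of_lt (le_max_left _ _) hs)]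
  congr 1
  push_cast
  ring

lemma ft_line (B : Type) [CommRing B] [Algebra ℤ B] [Algebra.FiniteType ℤ B] :
    FT False (aff ℤ (MvPolynomial (Fin 1) B)) := by
  have : Algebra.FiniteType ℤ (MvPolynomial (Fin 1) B) :=
    Algebra.FiniteType.trans (S := B) inferInstance inferInstance
  exact ft_aff False

lemma rank_iff {V W : ModuleCat.{w} ℚ} (e : V ≅ W) : (Module.Finite ℚ V ↔ Module.Finite ℚ W) ∧
    (Subsingleton V ↔ Subsingleton W) ∧ Module.finrank ℚ V = Module.finrank ℚ W :=
  ⟨Module.Finite.equiv_iff e.toLinearEquiv, e.toLinearEquiv.toEquiv.subsingleton_congr,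
    e.toLinearEquiv.finrank_eq⟩

lemma fin_line {A : ℤ → ℤ → Sch ℤ → ModuleCat.{w} ℚ} (hL : Line A) (B : Type) [CommRing B]
    [Algebra ℤ B] [Algebra.FiniteType ℤ B] (m : ℤ) :
    (FinRank (A m) (aff ℤ (MvPolynomial (Fin 1) B)) ↔ FinRank (A (m - 1)) (aff ℤ B)) ∧
      rk (A m) (aff ℤ (MvPolynomial (Fin 1) B)) = rk (A (m - 1)) (aff ℤ B) := by
  have h : ∀ k, _ := fun k => rank_iff (hL B m k).some
  refine ⟨?_, ?_⟩
  · unfold FinRank
    have h1 : {k | ¬ Subsingleton (A m k (aff ℤ (MvPolynomial (Fin 1) B)))} =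
        {k | ¬ Subsingleton (A (m - 1) k (aff ℤ B))} := by
      ext k
      exact not_congr (h k).2.1
    rw [h1]
    exact and_congr (forall_congr' fun k => (h k).1) Iff.rfl
  · rw [rk, rk]
    exact finsum_congr fun k => by rw [(h k).2.2]

lemma order_shift {F : ℂ → ℂ} (a z : ℂ) :
    meromorphicOrderAt (fun s => F (s + a)) z = meromorphicOrderAt F (z + a) :=
  meromorphicOrderAt_comp_add_const_eq_meromorphicOrderAt

/-- The order formula has two out of three and is invariant under products with lines. -/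
theorem gclo_formula {A : ℤ → ℤ → Sch ℤ → ModuleCat.{w} ℚ} (hA : IsChow A) (hL : Line A) :
    GClo False (Formula A) where
  iso := (clo_formula hA).iso
  total := (clo_formula hA).total
  opened := (clo_formula hA).opened
  torus := (clo_formula hA).torus
  closed {Z X U} i j hX ht hX' hU := by
    obtain ⟨F, hF, ⟨σ, hσ⟩, hm⟩ := hX'
    obtain ⟨G, hG, ⟨σ', hσ'⟩, hm'⟩ := hU
    obtain ⟨τ, h⟩ := zeta_triple hX (ft_closed i hX ht.closed) (ft_open j hX ht.opened) ht
    refine ⟨F * G⁻¹, hF.mul hG.inv, ⟨max (max σ σ') τ, fun s hs => ?_⟩, fun m => ?_⟩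
    · have a1 : σ < s.re := lt_of_le_of_lt ((le_max_left _ _).trans (le_max_left _ _)) hs
      have a2 : σ' < s.re := lt_of_le_of_lt ((le_max_right _ _).trans (le_max_left _ _)) hs
      obtain ⟨h1, h2, h3⟩ := h s (lt_of_le_of_lt (le_max_right _ _) hs)
      rw [Pi.mul_apply, Pi.inv_apply, hσ s a1, hσ' s a2, h1]
      field_simp
    · obtain ⟨l, hl⟩ := hA.les i j hX ht m
      have h1 := fin_closed hl (hm m).1 (hm' m).1
      refine ⟨h1, ?_⟩
      have h2 := rk_les hl h1 (hm m).1 (hm' m).1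
      have h3 : meromorphicOrderAt G⁻¹ (m : ℂ) = ((rk (A m) U : ℤ) : WithTop ℤ) := by
        rw [meromorphicOrderAt_inv, (hm' m).2]
        change ((-(-rk (A m) U) : ℤ) : WithTop ℤ) = _
        rw [neg_neg]
      rw [meromorphicOrderAt_mul (hF _ trivial) (hG.inv _ trivial), (hm m).2, h3,
        ← WithTop.coe_add]
      congr 1
      rw [h2]
      ring
  line B _ _ _ := by
    obtain ⟨τ, hτ⟩ := zeta_line B
    constructor
    · rintro ⟨F, hF, ⟨σ, hσ⟩, hm⟩
      refine ⟨fun s => F (s + 1), mero_sub hF 1, ⟨max σ τ, fun s hs => ?_⟩, fun m => ?_⟩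
      · have a1 : σ < (s + 1).re := by
          have := lt_of_le_of_lt (le_max_left _ _) hs
          simp only [Complex.add_re, Complex.one_re]
          linarith
        have a2 : τ < (s + 1).re := by
          have := lt_of_le_of_lt (le_max_right _ _) hs
          simp only [Complex.add_re, Complex.one_re]
          linarith
        change F (s + 1) = _
        rw [hσ _ a1, hτ _ a2, add_sub_cancel_right]
      · have h1 := hm (m + 1)
        have h2 := fin_line hL B (m + 1)
        rw [add_sub_cancel_right] at h2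
        refine ⟨h2.1.mp h1.1, ?_⟩
        rw [order_shift]
        have h3 := h1.2
        rw [h2.2] at h3
        push_cast at h3
        exact h3
    · rintro ⟨G, hG, ⟨σ, hσ⟩, hm⟩
      refine ⟨fun s => G (s + -1), mero_sub hG (-1), ⟨max (σ + 1) τ, fun s hs => ?_⟩, fun m => ?_⟩
      · have a1 : σ < (s - 1).re := by
          have := lt_of_le_of_lt (le_max_left _ _) hs
          simp only [Complex.sub_re, Complex.one_re]
          linarith
        change G (s + -1) = _
        rw [hτ s (lt_of_le_of_lt (le_max_right _ _) hs), ← sub_eq_add_neg, hσ _ a1]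
      · have h1 := hm (m - 1)
        have h2 := fin_line hL B m
        refine ⟨h2.1.mpr h1.1, ?_⟩
        rw [order_shift, h2.2, ← h1.2, ← sub_eq_add_neg]
        push_cast
        rfl

/-- The order formula for all schemes of finite type over `ℤ` and graph hypersurfaces. -/
theorem formula_graphs {A : ℤ → ℤ → Sch ℤ → ModuleCat.{w} ℚ} (hA : IsChow A) (hL : Line A) :
    (∀ X : Sch ℤ, FT False X → Formula A X) ↔
      ∀ (n : ℕ) (Γ : SimpleGraph (Fin n)), Formula A (complement ℤ Γ) :=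
  iff_complement short_int (gclo_formula hA hL)

end Run7.h570.GH
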