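import Pool.Agent.Run7.h570.GH.Final
import Pool.Agent.Z125.UN.Dim2
import Pool.Agent.Z125.UN.MotUni

/-!
# The complement of a graph hypersurface, by spanning trees
-/

set_option autoImplicit false

open CategoryTheory AlgebraicGeometry MvPolynomial Pool.Agent.Y116.UV Pool.Agent.Z125.UN
  Pool.Agent.Q282.UZ

namespace Run7.h570.GH

open Classical in
/-- The Kirchhoff polynomial of a finite graph: the sum over the spanning trees `T` of the products of the
variables `x_e`, `e ∈ T`. -/
noncomputable def kirchhoff (R : Type) [CommRing R] {n : ℕ} (Γ : SimpleGraph (Fin n)) :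
    MvPolynomial Γ.edgeSet R :=
  ∑ T ∈ Finset.univ.filter (fun T : Finset Γ.edgeSet =>
    (SimpleGraph.fromEdgeSet (Subtype.val '' (T : Set Γ.edgeSet))).IsTree), ∏ e ∈ T, X e

/-- The complement of the graph hypersurface: the open subscheme of the affine space with the
coordinates `x_e`, `e` an edge of `Γ`, in which the Kirchhoff polynomial is invertible. -/
noncomputable def complement (R : Type) [CommRing R] {n : ℕ} (Γ : SimpleGraph (Fin n)) : Sch R :=
  aff R (Localization.Away (kirchhoff R Γ))

lemma kirchhoff_eq (R : Type) [CommRing R] {n : ℕ} (Γ : SimpleGraph (Fin (n + 1))) :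
    kirchhoff R Γ = kirch R Γ := (Run7.h24.GH.t_PTree Γ).symm

lemma complement_eq (R : Type) [CommRing R] {n : ℕ} (Γ : SimpleGraph (Fin (n + 1))) :
    complement R Γ = ghS R Γ := by
  rw [complement, ghS, kirchhoff_eq]

/-- a graph without vertices has no spanning tree -/
lemma kirchhoff_zero (R : Type) [CommRing R] (Γ : SimpleGraph (Fin 0)) : kirchhoff R Γ = 0 := by
  classical
  rw [kirchhoff]
  apply Finset.sum_eq_zero
  intro T hT
  have h := (Finset.mem_filter.mp hT).2
  have := h.connected.nonempty
  exact this.elim fun v => v.elim0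

section

variable {R : Type} [CommRing R] {sep : Prop} {P : Sch R → Prop}

/-- **Graph hypersurfaces decide.** -/
theorem iff_complement (hS : ShortPresents R) (hP : GClo sep P) :
    (∀ X : Sch R, FT sep X → P X) ↔ ∀ (n : ℕ) (Γ : SimpleGraph (Fin n)), P (complement R Γ) := by
  constructor
  · intro h n Γ
    exact h _ (ft_aff sep)
  · intro h
    refine (graphs_iff hS hP).mpr fun n Γ => ?_
    have := h (n + 1) Γ
    rwa [complement_eq] at this

end

lemma smooth_complement {k : Type} [Field k] {n : ℕ} (Γ : SimpleGraph (Fin n)) :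
    Smooth (complement k Γ).hom := by
  apply smooth_aff
  have h0 : Algebra.FinitePresentation k (MvPolynomial Γ.edgeSet k) := inferInstance
  have h1 : Algebra.FormallySmooth k (MvPolynomial Γ.edgeSet k) := inferInstance
  have : Algebra.Smooth k (MvPolynomial Γ.edgeSet k) := ⟨h1, h0⟩
  have h2 : Algebra.Smooth (MvPolynomial Γ.edgeSet k) (Localization.Away (kirchhoff k Γ)) :=
    inferInstance
  exact Algebra.Smooth.comp k (MvPolynomial Γ.edgeSet k) (Localization.Away (kirchhoff k Γ))

lemma short_zmod (p : ℕ) : ShortPresents (ZMod p) := by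
  have : IsNoetherianRing (ZMod p) :=
    isNoetherianRing_of_surjective ℤ (ZMod p) (Int.castRingHom (ZMod p)) ZMod.intCast_surjective
  exact short_presents ZMod.intCast_surjective

end Run7.h570.GH
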