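import Pool.Agent.Run7.h570.GH.Res
import Pool.Agent.Run7.h798.UV.Zc
import Pool.Agent.R904.CU.Regular

/-!
# Étale cohomology of cycle complexes in very negative weights and graph hypersurfaces
-/

set_option autoImplicit false

open CategoryTheory CategoryTheory.Limits AlgebraicGeometry Pool.Agent.Y116.UV Pool.Agent.Q193.LT
  Pool.Agent.Q282.UK Pool.Agent.Q282.UZ Run7.h798.UV

universe w

namespace Run7.h570.GH

/-- The groups `A n i X` are finitely generated for all sufficiently negative `n` and all `i`. -/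
def Eventually (A : ℤ → ℤ → Sch ℤ → ModuleCat.{w} ℤ) (X : Sch ℤ) : Prop :=
  ∃ N : ℤ, ∀ n ≤ N, ∀ i, Module.Finite ℤ (A n i X)

lemma eventually_neg {A : ℤ → ℤ → Sch ℤ → ModuleCat.{w} ℤ} {X : Sch ℤ} (h : Eventually A X) (m : ℤ) :
    ∃ N : ℤ, N ≤ m ∧ ∀ n ≤ N, ∀ i, Module.Finite ℤ (A n i X) := by
  obtain ⟨N, hN⟩ := h
  exact ⟨min N m, min_le_right _ _, fun n hn i => hN n (hn.trans (min_le_left _ _)) i⟩

variable {A : ℤ → ℤ → Sch ℤ → ModuleCat.{w} ℤ}

/-- finite generation in very negative weights has two out of three and is invariant under products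
with lines -/
theorem gclo_eventually (hA : IsZc A) : GClo True (Eventually A) where
  iso hX e h := by
    obtain ⟨N, hN0, hN⟩ := eventually_neg h (-1)
    refine ⟨N, fun n hn i => ?_⟩
    obtain ⟨e'⟩ := hA.iso n (by omega) hX e i
    exact fin_iso' e' (hN n hn i)
  total f g hX ht hZ hU := by
    obtain ⟨N, hN0, hN⟩ := eventually_neg hZ (-1)
    obtain ⟨M, hM0, hM⟩ := eventually_neg hU (-1)
    refine ⟨min N M, fun n hn i => ?_⟩
    obtain ⟨m, hm⟩ := hA.les n (by omega) f g hX ht
    exact serre_exact serre_finite (hm.fg i) (hN n (by omega) i) (hM n (by omega) i)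
  opened f g hX ht hZ hX' := by
    obtain ⟨N, hN0, hN⟩ := eventually_neg hZ (-1)
    obtain ⟨M, hM0, hM⟩ := eventually_neg hX' (-1)
    refine ⟨min N M, fun n hn i => ?_⟩
    obtain ⟨m, hm⟩ := hA.les n (by omega) f g hX ht
    exact serre_exact serre_finite (hm.gh i) (hM n (by omega) i) (hN n (by omega) _)
  closed {Z X U} f g hX ht hX' hU := by
    obtain ⟨N, hN0, hN⟩ := eventually_neg hX' (-1)
    obtain ⟨M, hM0, hM⟩ := eventually_neg hU (-1)
    refine ⟨min N M, fun n hn i => ?_⟩
    obtain ⟨m, hm⟩ := hA.les n (by omega) f g hX ht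
    have h4 := hm.hf (i - 1)
    have h5 : (Equiv.addRight (1 : ℤ)) (i - 1) = i := by simp
    have h6 : ∀ (l' : ℤ) (q : A n (i - 1) U ⟶ A n l' Z), l' = i → ExactAt q (m.f l') →
        Module.Finite ℤ (A n i Z) := by
      intro l' q hl hq
      subst hl
      exact serre_exact serre_finite hq (hM n (by omega) _) (hN n (by omega) _)
    exact h6 _ (m.h (i - 1)) h5 h4
  torus B _ _ _ h := by
    obtain ⟨N, hN0, hN⟩ := eventually_neg h (-1)
    refine ⟨N, fun n hn i => ?_⟩
    obtain ⟨s, r, hsr⟩ := hA.torus n (by omega) B i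
    have hm : Mono s := mono_of_mono_fac hsr
    exact (serre_finite (E := ℤ)).of_mono s (hN n hn _)
  line B _ _ _ := by
    have h0 : Algebra.FiniteType ℤ (MvPolynomial (Fin 1) B) :=
      Algebra.FiniteType.trans (S := B) inferInstance inferInstance
    have h1 : Algebra.FiniteType ℤ (Polynomial B) :=
      Algebra.FiniteType.trans (S := B) inferInstance inferInstance
    have e : Nonempty (aff ℤ (MvPolynomial (Fin 1) B) ≅ aff ℤ (Polynomial B)) :=
      ⟨affIso ((MvPolynomial.uniqueAlgEquiv B (Fin 1)).restrictScalars ℤ).symm⟩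
    have key : ∀ n < 0, ∀ i, (Module.Finite ℤ (A n i (aff ℤ (MvPolynomial (Fin 1) B))) ↔
        Module.Finite ℤ (A (n - 1) (i + 2) (aff ℤ B))) := by
      intro n hn i
      obtain ⟨e1⟩ := hA.iso n hn (ft_aff True) e i
      obtain ⟨e2⟩ := hA.line n hn B i
      exact ⟨fun h => fin_iso' (e1 ≪≫ e2) h, fun h => fin_iso' (e1 ≪≫ e2).symm h⟩
    constructor
    · intro h
      obtain ⟨N, hN0, hN⟩ := eventually_neg h (-1)
      refine ⟨N - 1, fun n hn i => ?_⟩
      have := (key (n + 1) (by omega) (i - 2)).mp (hN (n + 1) (by omega) (i - 2))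
      rwa [add_sub_cancel_right, sub_add_cancel] at this
    · intro h
      obtain ⟨N, hN0, hN⟩ := eventually_neg h (-1)
      exact ⟨N, fun n hn i => (key n (by omega) i).mpr (hN (n - 1) (by omega) _)⟩

/-- very negative weights and graph hypersurfaces -/
theorem eventually_graphs (hA : IsZc A) :
    (∀ X : Sch ℤ, FT True X → Eventually A X) ↔
      ∀ (n : ℕ) (Γ : SimpleGraph (Fin n)), Eventually A (complement ℤ Γ) :=
  iff_complement short_int (gclo_eventually hA)

/-- Further known properties of `A n i X = H^i(X_et, ℤ^c(n))`, `n < 0`: transfer for finite flat surjective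
morphisms of integral schemes, finiteness of the torsion, and for proper regular `X` (duality): if the
groups in the degrees `i ≤ -2n + 1` are finitely generated, then all of them are. -/
structure IsDual (A : ℤ → ℤ → Sch ℤ → ModuleCat.{w} ℤ) : Prop where
  transfer : ∀ n < 0, HasTransfer (A n)
  torsion : ∀ n < 0, TorsionFinite (A n)
  duality : ∀ n < 0, ∀ X : Sch ℤ, FT True X → IsProper X.hom →
    Pool.Agent.R904.CU.IsRegularScheme X.left → (∀ i ≤ -2 * n + 1, Module.Finite ℤ (A n i X)) →
      ∀ i, Module.Finite ℤ (A n i X)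

lemma alt_eventually (hA : IsZc A) (hD : IsDual A) : AltClosed (Eventually A) where
  iso := (gclo_eventually hA).iso
  total := (gclo_eventually hA).total
  opened := (gclo_eventually hA).opened
  finite {V U} f hU h1 h2 h3 h4 h5 h := by
    obtain ⟨N, hN0, hN⟩ := eventually_neg h (-1)
    refine ⟨N, fun n hn i => ?_⟩
    obtain ⟨s, r, d, hd, hsr⟩ := hD.transfer n (by omega) f hU h1 h2 h3 h4 h5 i
    refine finite_of_transfer s r (d : ℤ) (fun x => (hsr x).trans ?_)
      (hD.torsion n (by omega) U hU i d hd) (hN n hn i)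
    exact (int_smul_eq_zsmul (A n i U).isModule _ _).symm

/-- proper regular schemes, very negative weights and graph hypersurfaces -/
theorem regular_graphs (hJ : Alterations fun X => Pool.Agent.R904.CU.IsRegularScheme X.left)
    (hA : IsZc A) (hD : IsDual A) :
    (∀ X : Sch ℤ, FT True X → IsProper X.hom → Pool.Agent.R904.CU.IsRegularScheme X.left →
      ∃ N : ℤ, ∀ n ≤ N, ∀ i ≤ -2 * n + 1, Module.Finite ℤ (A n i X)) ↔
      ∀ (n : ℕ) (Γ : SimpleGraph (Fin n)), Eventually A (complement ℤ Γ) := by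
  rw [← eventually_graphs hA]
  constructor
  · intro h
    refine hJ _ (alt_eventually hA hD) fun X hX hp hr => ?_
    obtain ⟨N, hN⟩ := h X hX hp hr
    exact ⟨min N (-1), fun n hn => hD.duality n (by omega) X hX hp hr (hN n (by omega))⟩
  · intro h X hX _ _
    obtain ⟨N, hN⟩ := h X hX
    exact ⟨N, fun n hn i _ => hN n hn i⟩

end Run7.h570.GH
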